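import Pool.Agent.helper80.EN.Spec5

/-! Row GLN of the project EB (MP_202db4_al): `GL n R` for a Noetherian commutative ring `R`. -/

set_option autoImplicit false

namespace Pool.Agent.helper80.EN

open Subgroup

universe u

theorem GLN_prime {R : Type u} [CommRing R] (p : minimalPrimes R) : p.1.IsPrime :=
  p.2.1.1

noncomputable instance GLN_dom {R : Type u} [CommRing R] (p : minimalPrimes R) : IsDomain (R ⧸ p.1) := by
  haveI := GLN_prime p
  infer_instance

theorem GLN_lin {R : Type u} [CommRing R] (n : ℕ) (p : minimalPrimes R) :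
    InL (GL (Fin n) (FractionRing (R ⧸ p.1))) :=
  InL.linear (FractionRing (R ⧸ p.1)) n (MonoidHom.id _) Function.injective_id

noncomputable def GLN_hom (R : Type u) [CommRing R] (n : ℕ) :
    GL (Fin n) R →* ((p : minimalPrimes R) → GL (Fin n) (FractionRing (R ⧸ p.1))) :=
  MonoidHom.pi fun p => Matrix.GeneralLinearGroup.map
    ((algebraMap (R ⧸ p.1) (FractionRing (R ⧸ p.1))).comp (Ideal.Quotient.mk p.1))

theorem GLN_mem {R : Type u} [CommRing R] {n : ℕ} (g : GL (Fin n) R) (hg : g ∈ (GLN_hom R n).ker)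
    (i j : Fin n) : (g : Matrix (Fin n) (Fin n) R) i j - (1 : Matrix (Fin n) (Fin n) R) i j ∈ nilradical R := by
  have h0 : nilradical R = sInf (minimalPrimes R) := by
    unfold nilradical
    exact (Ideal.sInf_minimalPrimes).symm
  rw [h0, Submodule.mem_sInf]
  intro p hp
  have h1 := congrFun (MonoidHom.mem_ker.1 hg) ⟨p, hp⟩
  have h2 : Matrix.GeneralLinearGroup.map
    ((algebraMap (R ⧸ p) (FractionRing (R ⧸ p))).comp (Ideal.Quotient.mk p)) g = 1 := h1
  haveI : IsDomain (R ⧸ p) := GLN_dom ⟨p, hp⟩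
  have h3 : ((algebraMap (R ⧸ p) (FractionRing (R ⧸ p))).comp (Ideal.Quotient.mk p))
      ((g : Matrix (Fin n) (Fin n) R) i j) = (1 : Matrix (Fin n) (Fin n) (FractionRing (R ⧸ p))) i j := by
    rw [← Matrix.GeneralLinearGroup.map_apply, h2]
    rfl
  have h4 : (1 : Matrix (Fin n) (Fin n) (FractionRing (R ⧸ p))) i j =
      ((algebraMap (R ⧸ p) (FractionRing (R ⧸ p))).comp (Ideal.Quotient.mk p))
        ((1 : Matrix (Fin n) (Fin n) R) i j) := by
    rw [Matrix.one_apply, Matrix.one_apply]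
    split_ifs
    · rw [map_one]
    · rw [map_zero]
  rw [h4] at h3
  have h5 := IsFractionRing.injective (R ⧸ p) (FractionRing (R ⧸ p)) h3
  exact (Ideal.Quotient.mk_eq_mk_iff_sub_mem _ _).1 h5

theorem GLN_ker {R : Type u} [CommRing R] {n : ℕ} (g : GL (Fin n) R) (hg : g ∈ (GLN_hom R n).ker) :
    g ∈ (Matrix.GeneralLinearGroup.map (n := Fin n) (Ideal.Quotient.mk (nilradical R))).ker := by
  rw [MonoidHom.mem_ker]
  ext i j
  rw [Matrix.GeneralLinearGroup.map_apply]
  have h := (Ideal.Quotient.mk_eq_mk_iff_sub_mem _ _).2 (GLN_mem g hg i j)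
  rw [h]
  show _ = (1 : Matrix (Fin n) (Fin n) (R ⧸ nilradical R)) i j
  rw [Matrix.one_apply, Matrix.one_apply]
  split_ifs
  · rw [map_one]
  · rw [map_zero]

theorem GLN (h1 : GLK_stmt.{u}) (h2 : PRD_stmt.{u}) (h3 : LNI_stmt.{u}) : GLN_stmt.{u} := by
  intro R _ _ n
  refine h2.1 _ _ (GLN_hom R n) ?_ ?_
  · obtain ⟨k, hk⟩ := IsNoetherianRing.isNilpotent_nilradical R
    have hs := h1 R (nilradical R) n k hk
    refine InL.sub (Subgroup.inclusion (fun g hg => GLN_ker g hg)) (Subgroup.inclusion_injective _) ((h3 _).1 hs)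
  · haveI : Finite (minimalPrimes R) := (minimalPrimes.finite_of_isNoetherianRing R).to_subtype
    exact h2.2.2 (minimalPrimes R) _ fun p => GLN_lin n p

end Pool.Agent.helper80.EN
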