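import Pool.Agent.helper80.EN.Spec2

/-!
# Row TEL: elliptic elements of groups acting on trees
-/

set_option autoImplicit false

namespace Pool.Agent.helper80.EN

open Subgroup

universe u

theorem TEL (h1 : TG_stmt.{u}) : TEL_stmt.{u} := by
  intro G V _ _ d hA
  obtain ⟨hun, hmed, -⟩ := h1 V d hA.tm
  have c1 : ∀ g : G, Cvx d {v : V | g • v = v} := by
    intro g x hx y hy m hm
    have hx' : g • x = x := hx
    have hy' : g • y = y := hy
    have e1 : d x (g • m) = d x m := by
      conv_lhs => rw [← hx']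
      exact hA.iso g x m
    have e2 : d (g • m) y = d m y := by
      conv_lhs => rw [← hy']
      exact hA.iso g m y
    have hm' : Bt d x (g • m) y := by
      unfold Bt at hm ⊢
      rw [e1, e2]
      exact hm
    exact (hun x y m (g • m) hm hm' e1.symm).symm
  have c2 : ∀ (g : G) (q : V), g • q = q → ∀ p : V, ∃ m, Bt d p m (g • p) ∧ g • m = m := by
    intro g q hq p
    obtain ⟨m, hm1, hm2, hm3⟩ := hmed p (g • p) q
    refine ⟨m, hm1, ?_⟩
    have e1 : d (g • p) (g • m) = d p m := hA.iso g p m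
    have e2 : d (g • m) q = d m q := by
      conv_lhs => rw [← hq]
      exact hA.iso g m q
    have e3 : d (g • p) q = d p q := by
      conv_lhs => rw [← hq]
      exact hA.iso g p q
    unfold Bt at hm2 hm3
    have hm' : Bt d (g • p) (g • m) q := by
      unfold Bt
      omega
    exact (hun (g • p) q m (g • m) hm2 hm' (by omega)).symm
  have c3 : ∀ a g : G, Ell V a → (¬ ∃ v : V, a • v = v ∧ (g⁻¹ * a * g) • v = v) →
      ¬ ∃ v : V, a • v = v ∧ ((com g a)⁻¹ * a * com g a) • v = v := by
    rintro a g - hno ⟨v, hv1, hv2⟩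
    apply hno
    have e1 : com g a • v = (g⁻¹ * a * g)⁻¹ • v := by
      have : com g a = (g⁻¹ * a * g)⁻¹ * a := by
        unfold com
        group
      rw [this, mul_smul, hv1]
    have e2 : a • (com g a • v) = com g a • v := by
      have h := congrArg (fun w => com g a • w) hv2
      simp only [← mul_smul] at h
      rw [← mul_smul]
      rw [show com g a * ((com g a)⁻¹ * a * com g a) = a * com g a by group] at h
      exact h
    rw [e1] at e2
    have hq : (g⁻¹ * a * g)⁻¹ • (g⁻¹ • v) = g⁻¹ • v := by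
      rw [← mul_smul, show (g⁻¹ * a * g)⁻¹ * g⁻¹ = g⁻¹ * a⁻¹ by group, mul_smul]
      congr 1
      rw [inv_smul_eq_iff]
      exact hv1.symm
    obtain ⟨m, hm1, hm2⟩ := c2 (g⁻¹ * a * g)⁻¹ (g⁻¹ • v) hq v
    refine ⟨m, c1 a v hv1 _ e2 m hm1, ?_⟩
    rw [inv_smul_eq_iff] at hm2
    exact hm2.symm
  refine ⟨c1, c2, c3, ?_⟩
  intro a ha hE g
  by_contra hno
  have key : ∀ n, ¬ ∃ v : V, a • v = v ∧ ((icom g a n)⁻¹ * a * icom g a n) • v = v := by
    intro n
    induction n with
    | zero => exact hno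
    | succ n ih => exact c3 a (icom g a n) hE ih
  obtain ⟨n, hn⟩ := ha g
  obtain ⟨v, hv⟩ := hE
  apply key n
  refine ⟨v, hv, ?_⟩
  rw [hn, inv_one, one_mul, mul_one]
  exact hv

end Pool.Agent.helper80.EN
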